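import Pool.Agent.Lib.P0cd.Final

/-!
MP_0cd278_co: one of the two inequalities of Q1.  The least number `g(n)` of cops who catch a
robber of speed 2 on `[n]^2` is at most `8 f(n) + 1 ≤ 9 f(n)`, where `f(n)` is the least number of
cops who win one-dimensional Rugby on `ℤ × [n]`.
-/

namespace Pool.Agent.Results.MP_0cd278_co.CatchVersusRugby

open Pool.Agent.Lib.P0cd

/-- The least number of cops who win one-dimensional Rugby on `ℤ × [n]` when the robber starts in
row `y`. -/
noncomputable def rugbyNumber (n : ℕ) (y : ℤ) : ℕ := sInf {m | CopsWinRugbyFrom n y m}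

/-- The least number of cops who catch the robber of speed 2 on `[n]^2`. -/
noncomputable def catchNumber (n : ℕ) : ℕ := sInf {m | CopsCatch n m}

/-- For every `n` and every row `y` of the board both least numbers exist, and the catching number
of `[n]^2` is at most 9 times the Rugby number of `ℤ × [n]` (more precisely `8 f + 1`). -/
theorem result (n : ℕ) (y : ℤ) (h1 : 1 ≤ y) (hn : y ≤ n) :
    IsLeast {m | CopsWinRugbyFrom n y m} (rugbyNumber n y) ∧
      IsLeast {m | CopsCatch n m} (catchNumber n) ∧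
      1 ≤ rugbyNumber n y ∧
      catchNumber n ≤ 8 * rugbyNumber n y + 1 ∧
      catchNumber n ≤ 9 * rugbyNumber n y := by
  have hf : IsLeast {m | CopsWinRugbyFrom n y m} (rugbyNumber n y) :=
    ⟨Nat.sInf_mem ⟨2 * n, rugby_wall⟩, fun m hm => Nat.sInf_le hm⟩
  have hg1 : CopsCatch n (8 * rugbyNumber n y + 1) := catch_of_rugby ⟨h1, hn⟩ hf.1
  have hg : IsLeast {m | CopsCatch n m} (catchNumber n) :=
    ⟨Nat.sInf_mem ⟨_, hg1⟩, fun m hm => Nat.sInf_le hm⟩
  have hf1 : 1 ≤ rugbyNumber n y := by
    rcases Nat.eq_zero_or_pos (rugbyNumber n y) with h0 | h0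
    · have := hf.1
      rw [h0] at this
      exact absurd this (rugby_zero ⟨h1, hn⟩)
    · exact h0
  have hle : catchNumber n ≤ 8 * rugbyNumber n y + 1 := hg.2 hg1
  exact ⟨hf, hg, hf1, hle, by omega⟩

end Pool.Agent.Results.MP_0cd278_co.CatchVersusRugby
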